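import Pool.Agent.Helper21.D2.Stmts
import Pool.Agent.Helper82.AHS.ThmC
import Pool.Agent.Helper84.MT.Gsp

/-!
# Invariant and pseudo-invariant parts of a tensor
-/

set_option autoImplicit false

namespace Pool.Agent.Helper21.TH

open Matrix Pool.Agent.Helper82.AHS

namespace H72

section gen

variable {r : ℕ} {K : Type} [Field K]

/-- an isometry without the eigenvalue `-1` has determinant one -/
theorem det_one {Q s : Matrix (Fin r) (Fin r) K} (hQ : Q.det ≠ 0) (hs : sᵀ * Q * s = Q)
    (h1 : (1 + s).det ≠ 0) : s.det = 1 := by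
  have e : (1 + s)ᵀ * Q * s = Q * (1 + s) := by
    rw [transpose_add, transpose_one, Matrix.add_mul, Matrix.add_mul, hs, Matrix.one_mul,
      Matrix.mul_add, Matrix.mul_one, add_comm]
  have h2 := congrArg Matrix.det e
  rw [det_mul, det_mul, det_transpose, det_mul, mul_comm (1 + s).det] at h2
  have h3 : Q.det * (1 + s).det ≠ 0 := mul_ne_zero hQ h1
  exact (mul_eq_left₀ h3).mp h2

/-- isometries of alternating forms have determinant one -/
theorem det_alt [CharZero K] {Q g : Matrix (Fin r) (Fin r) K} (hQ : Q.det ≠ 0) (hs : Qᵀ = -Q)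
    (hg : gᵀ * Q * g = Q) : g.det = 1 := by
  obtain ⟨s, t, hs', ht', h1, h2, rfl⟩ :=
    MT.symplectic_factor Q (isUnit_iff_ne_zero.mpr hQ) hs g hg
  rw [det_mul, det_one hQ hs' h1, det_one hQ ht' h2, one_mul]

theorem det_sq {Q g : Matrix (Fin r) (Fin r) K} (hQ : Q.det ≠ 0) (hg : gᵀ * Q * g = Q) :
    g.det = 1 ∨ g.det = -1 := by
  have h2 := congrArg Matrix.det hg
  rw [det_mul, det_mul, det_transpose] at h2
  have h3 : g.det * g.det = 1 := by
    have : Q.det * (g.det * g.det) = Q.det * 1 := by rw [mul_one]; linear_combination h2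
    exact mul_left_cancel₀ hQ this
  exact mul_self_eq_one_iff.mp h3

theorem pw_diag (m : ℕ) (v : Fin r → K) :
    pw m (diagonal v) = diagonal (fun i : Fin m → Fin r => ∏ a, v (i a)) := by
  ext i j
  show pwf _ i j = _
  rw [pwf_apply]
  by_cases h : i = j
  · subst h
    rw [diagonal_apply_eq]
    exact Finset.prod_congr rfl fun a _ => diagonal_apply_eq _ _
  · rw [diagonal_apply_ne _ h]
    obtain ⟨a, ha⟩ := Function.ne_iff.mp h
    exact Finset.prod_eq_zero (Finset.mem_univ a) (diagonal_apply_ne _ ha)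

/-- the change of the sign of one coordinate -/
def sv (k : Fin r) : Fin r → K := Function.update (fun _ => 1) k (-1)

theorem sv_sq (k i : Fin r) : (sv k i : K) * sv k i = 1 := by
  unfold sv
  by_cases h : i = k
  · subst h; rw [Function.update_self]; ring
  · rw [Function.update_of_ne h, one_mul]

/-- as an element of the group -/
def dk (K : Type) [Field K] (k : Fin r) : GL (Fin r) K where
  val := diagonal (sv k)
  inv := diagonal (sv k)
  val_inv := by
    rw [diagonal_mul_diagonal]
    simp only [sv_sq]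
    exact diagonal_one
  inv_val := by
    rw [diagonal_mul_diagonal]
    simp only [sv_sq]
    exact diagonal_one

theorem dk_val (k : Fin r) : ((dk K k : GL (Fin r) K) : Matrix (Fin r) (Fin r) K) =
    diagonal (sv k) := rfl

theorem dk_inv (k : Fin r) : (((dk K k)⁻¹ : GL (Fin r) K) : Matrix (Fin r) (Fin r) K) =
    diagonal (sv k) := rfl

theorem dk_det (k : Fin r) : ((dk K k : GL (Fin r) K) : Matrix (Fin r) (Fin r) K).det = -1 := by
  rw [dk_val, det_diagonal]
  unfold sv
  rw [Finset.prod_update_of_mem (Finset.mem_univ k)]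
  simp

/-- minus one -/
def mo (r : ℕ) (K : Type) [Field K] : GL (Fin r) K where
  val := diagonal (fun _ => -1)
  inv := diagonal (fun _ => -1)
  val_inv := by rw [diagonal_mul_diagonal]; simp
  inv_val := by rw [diagonal_mul_diagonal]; simp

theorem act_diag {m n : ℕ} (g : GL (Fin r) K) (v : Fin r → K)
    (h1 : (g : Matrix (Fin r) (Fin r) K) = diagonal v)
    (h2 : ((g⁻¹ : GL (Fin r) K) : Matrix (Fin r) (Fin r) K) = diagonal v) (t : T r m n K)
    (i : Fin m → Fin r) (j : Fin n → Fin r) :
    act g t i j = (∏ a, v (i a)) * t i j * ∏ b, v (j b) := by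
  unfold act
  rw [h1, h2, pw_diag, pw_diag, mul_diagonal, diagonal_mul]

theorem act_smul {m n : ℕ} (g : GL (Fin r) K) (c : K) (t : T r m n K) :
    act g (c • t) = c • act g t := (actL g).map_smul c t

theorem act_add {m n : ℕ} (g : GL (Fin r) K) (s t : T r m n K) :
    act g (s + t) = act g s + act g t := (actL g).map_add s t

theorem act_sub {m n : ℕ} (g : GL (Fin r) K) (s t : T r m n K) :
    act g (s - t) = act g s - act g t := (actL g).map_sub s t

end gen

/-- an orthogonal basis -/
theorem orth {r : ℕ} (Q : Matrix (Fin r) (Fin r) ℚ) (hQ : Qᵀ = Q) :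
    ∃ (E : GL (Fin r) ℚ) (d : Fin r → ℚ),
      (E : Matrix (Fin r) (Fin r) ℚ)ᵀ * Q * (E : Matrix (Fin r) (Fin r) ℚ) = diagonal d := by
  have hsymm : LinearMap.IsSymm (Matrix.toBilin' Q) := ⟨fun x y => by
    rw [Matrix.toBilin'_apply, Matrix.toBilin'_apply, RingHom.id_apply, Finset.sum_comm]
    refine Finset.sum_congr rfl fun j _ => Finset.sum_congr rfl fun i _ => ?_
    have : Q i j = Q j i := congrFun (congrFun hQ.symm i) j
    rw [this]; ring⟩
  obtain ⟨v0, hv0⟩ := LinearMap.BilinForm.exists_orthogonal_basis hsymm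
  have hfr : Module.finrank ℚ (Fin r → ℚ) = r := Module.finrank_fin_fun ℚ
  let v : Module.Basis (Fin r) ℚ (Fin r → ℚ) := v0.reindex (finCongr hfr)
  have hv : ∀ k l, k ≠ l → Matrix.toBilin' Q (v k) (v l) = 0 := by
    intro k l hkl
    have h1 := hv0 (i := (finCongr hfr).symm k) (j := (finCongr hfr).symm l)
      (fun h => hkl ((finCongr hfr).symm.injective h))
    simpa [v] using h1
  refine ⟨⟨(Pi.basisFun ℚ (Fin r)).toMatrix v, v.toMatrix (Pi.basisFun ℚ (Fin r)),
    Module.Basis.toMatrix_mul_toMatrix_flip _ _, Module.Basis.toMatrix_mul_toMatrix_flip _ _⟩,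
    fun k => Matrix.toBilin' Q (v k) (v k), ?_⟩
  ext k l
  have h1 : ((((Pi.basisFun ℚ (Fin r)).toMatrix v)ᵀ * Q) * (Pi.basisFun ℚ (Fin r)).toMatrix v) k l
      = Matrix.toBilin' Q (v k) (v l) := by
    rw [Matrix.toBilin'_apply, Matrix.mul_apply, Finset.sum_comm]
    refine Finset.sum_congr rfl fun j _ => ?_
    rw [Matrix.mul_apply, Finset.sum_mul]
    rfl
  show ((((Pi.basisFun ℚ (Fin r)).toMatrix v)ᵀ * Q) * (Pi.basisFun ℚ (Fin r)).toMatrix v) k l = _
  rw [h1]
  by_cases h : k = l
  · subst h; rw [diagonal_apply_eq]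
  · rw [diagonal_apply_ne _ h, hv k l h]

end H72

open H72 in
/-- invariant and pseudo-invariant parts -/
theorem st_PSD (tnt : ST_TNT) : ST_PSD := by
  intro r m n Q t hQ hs hk
  have hQK : ∀ (K : Type) [Field K] [Algebra ℚ K], (Q.map (algebraMap ℚ K)).det ≠ 0 := by
    intro K _ _ h
    apply hQ
    apply (algebraMap ℚ K).injective
    rw [map_zero, RingHom.map_det]
    exact h
  by_cases halt : Qᵀ = -Q
  · refine ⟨t, 0, (add_zero t).symm, hk, fun A _ => by rw [Matrix.mul_zero, Matrix.zero_mul],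
      ?_, fun _ => rfl⟩
    intro K _ _ g hg
    have hcz : CharZero K := algebraRat.charZero K
    have haltK : (Q.map (algebraMap ℚ K))ᵀ = -(Q.map (algebraMap ℚ K)) := by
      rw [← Matrix.transpose_map, halt]
      ext i j
      simp
    have hdet := det_alt (hQK K) haltK hg
    refine ⟨tnt r m n Q t hQ hs hk K g hg hdet, ?_⟩
    have h0 : up K (0 : T r m n ℚ) = 0 := by
      ext i j
      simp [up]
    rw [h0, smul_zero]
    exact (actL g).map_zero
  · have hsym : Qᵀ = Q := hs.resolve_right halt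
    obtain ⟨E, d, hE⟩ := orth Q hsym
    have hr : 0 < r := by
      rcases Nat.eq_zero_or_pos r with h | h
      · subst h
        exact absurd (by ext i; exact i.elim0) halt
      · exact h
    -- the reflections
    let R : Fin r → GL (Fin r) ℚ := fun k => E * dk ℚ k * E⁻¹
    have hRval : ∀ k, (R k : Matrix (Fin r) (Fin r) ℚ) = (E : Matrix (Fin r) (Fin r) ℚ) *
        diagonal (sv k) * ((E⁻¹ : GL (Fin r) ℚ) : Matrix (Fin r) (Fin r) ℚ) := fun k => rfl
    have hEE : (E : Matrix (Fin r) (Fin r) ℚ) *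
        ((E⁻¹ : GL (Fin r) ℚ) : Matrix (Fin r) (Fin r) ℚ) = 1 := gl_mul_inv E
    have hEE' : ((E⁻¹ : GL (Fin r) ℚ) : Matrix (Fin r) (Fin r) ℚ) *
        (E : Matrix (Fin r) (Fin r) ℚ) = 1 := gl_inv_mul E
    have hEt : (((E⁻¹ : GL (Fin r) ℚ) : Matrix (Fin r) (Fin r) ℚ))ᵀ *
        (E : Matrix (Fin r) (Fin r) ℚ)ᵀ = 1 := by rw [← transpose_mul, hEE, transpose_one]
    have hR : ∀ k, (R k : Matrix (Fin r) (Fin r) ℚ)ᵀ * Q * (R k : Matrix (Fin r) (Fin r) ℚ) = Q := by
      intro k
      rw [hRval, transpose_mul, transpose_mul, diagonal_transpose]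
      have h1 : diagonal (sv k) * diagonal d * diagonal (sv k) = diagonal d := by
        rw [diagonal_mul_diagonal, diagonal_mul_diagonal]
        congr 1
        funext i
        have := sv_sq (K := ℚ) k i
        linear_combination d i * this
      calc (((E⁻¹ : GL (Fin r) ℚ) : Matrix (Fin r) (Fin r) ℚ))ᵀ *
            (diagonal (sv k) * (E : Matrix (Fin r) (Fin r) ℚ)ᵀ) * Q *
            ((E : Matrix (Fin r) (Fin r) ℚ) * diagonal (sv k) *
              ((E⁻¹ : GL (Fin r) ℚ) : Matrix (Fin r) (Fin r) ℚ))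
          = (((E⁻¹ : GL (Fin r) ℚ) : Matrix (Fin r) (Fin r) ℚ))ᵀ *
            (diagonal (sv k) * ((E : Matrix (Fin r) (Fin r) ℚ)ᵀ * Q *
              (E : Matrix (Fin r) (Fin r) ℚ)) * diagonal (sv k)) *
              ((E⁻¹ : GL (Fin r) ℚ) : Matrix (Fin r) (Fin r) ℚ) := by
            simp only [Matrix.mul_assoc]
        _ = (((E⁻¹ : GL (Fin r) ℚ) : Matrix (Fin r) (Fin r) ℚ))ᵀ *
            ((E : Matrix (Fin r) (Fin r) ℚ)ᵀ * Q * (E : Matrix (Fin r) (Fin r) ℚ)) *
              ((E⁻¹ : GL (Fin r) ℚ) : Matrix (Fin r) (Fin r) ℚ) := by rw [hE, h1]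
        _ = ((((E⁻¹ : GL (Fin r) ℚ) : Matrix (Fin r) (Fin r) ℚ))ᵀ *
            (E : Matrix (Fin r) (Fin r) ℚ)ᵀ) * Q * ((E : Matrix (Fin r) (Fin r) ℚ) *
              ((E⁻¹ : GL (Fin r) ℚ) : Matrix (Fin r) (Fin r) ℚ)) := by
            simp only [Matrix.mul_assoc]
        _ = Q := by rw [hEt, hEE, Matrix.one_mul, Matrix.mul_one]
    have hRdet : ∀ k, (R k : Matrix (Fin r) (Fin r) ℚ).det = -1 := by
      intro k
      have h1 : (E : Matrix (Fin r) (Fin r) ℚ).det *
          ((E⁻¹ : GL (Fin r) ℚ) : Matrix (Fin r) (Fin r) ℚ).det = 1 := by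
        rw [← det_mul, hEE, Matrix.det_one]
      have h2 := dk_det (K := ℚ) k
      rw [dk_val] at h2
      rw [hRval, det_mul, det_mul, h2]
      linear_combination -h1
    let k0 : Fin r := ⟨0, hr⟩
    -- the image of `t`
    set u : T r m n ℚ := act (R k0) t with hu
    have hku : ∀ A : Matrix (Fin r) (Fin r) ℚ, Aᵀ * Q + Q * A = 0 → dr m A * u = u * dr n A := by
      intro A hA
      set G : Matrix (Fin r) (Fin r) ℚ := (R k0 : Matrix (Fin r) (Fin r) ℚ) with hG
      set G' : Matrix (Fin r) (Fin r) ℚ := (((R k0)⁻¹ : GL (Fin r) ℚ) : Matrix (Fin r) (Fin r) ℚ)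
        with hG'
      have hGG : G * G' = 1 := gl_mul_inv (R k0)
      have hGt : Gᵀ * Q * G = Q := hR k0
      have hGG' : G' * G = 1 := gl_inv_mul (R k0)
      have h3 : Gᵀ * Q = Q * G' := by
        calc Gᵀ * Q = Gᵀ * Q * (G * G') := by rw [hGG, Matrix.mul_one]
          _ = (Gᵀ * Q * G) * G' := by simp only [Matrix.mul_assoc]
          _ = Q * G' := by rw [hGt]
      have h3' : G'ᵀ * Q = Q * G := by
        calc G'ᵀ * Q = G'ᵀ * (Gᵀ * Q * G) := by rw [hGt]
          _ = (G * G')ᵀ * Q * G := by rw [transpose_mul]; simp only [Matrix.mul_assoc]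
          _ = Q * G := by rw [hGG, transpose_one, Matrix.one_mul]
      have h4 : (G' * A * G)ᵀ * Q + Q * (G' * A * G) = 0 := by
        have e1 : (G' * A * G)ᵀ * Q = Gᵀ * (Aᵀ * Q) * G := by
          calc (G' * A * G)ᵀ * Q = Gᵀ * Aᵀ * (G'ᵀ * Q) := by
                rw [transpose_mul, transpose_mul]; simp only [Matrix.mul_assoc]
            _ = Gᵀ * (Aᵀ * Q) * G := by rw [h3']; simp only [Matrix.mul_assoc]
        have e2 : Q * (G' * A * G) = Gᵀ * (Q * A) * G := by
          calc Q * (G' * A * G) = (Q * G') * A * G := by simp only [Matrix.mul_assoc]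
            _ = Gᵀ * (Q * A) * G := by rw [← h3]; simp only [Matrix.mul_assoc]
        rw [e1, e2, ← Matrix.add_mul, ← Matrix.mul_add, hA, Matrix.mul_zero, Matrix.zero_mul]
      have h5 : Kill (G' * A * G) t := hk _ h4
      have h6 := kill_act (R k0) h5
      have h7 : (R k0 : Matrix (Fin r) (Fin r) ℚ) * (G' * A * G) *
          (((R k0)⁻¹ : GL (Fin r) ℚ) : Matrix (Fin r) (Fin r) ℚ) = A := by
        show G * (G' * A * G) * G' = A
        calc G * (G' * A * G) * G' = (G * G') * A * (G * G') := by simp only [Matrix.mul_assoc]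
          _ = A := by rw [hGG, Matrix.one_mul, Matrix.mul_one]
      rw [h7] at h6
      exact h6
    have hsum : t = (1 / 2 : ℚ) • (t + u) + (1 / 2 : ℚ) • (t - u) := by
      rw [← smul_add, add_add_sub_cancel, ← two_smul ℚ t, smul_smul]
      norm_num
    have hK1 : ∀ A : Matrix (Fin r) (Fin r) ℚ, Aᵀ * Q + Q * A = 0 →
        dr m A * ((1 / 2 : ℚ) • (t + u)) = ((1 / 2 : ℚ) • (t + u)) * dr n A := by
      intro A hA
      rw [Matrix.mul_smul, Matrix.smul_mul, Matrix.mul_add, Matrix.add_mul, hk A hA, hku A hA]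
    have hK2 : ∀ A : Matrix (Fin r) (Fin r) ℚ, Aᵀ * Q + Q * A = 0 →
        dr m A * ((1 / 2 : ℚ) • (t - u)) = ((1 / 2 : ℚ) • (t - u)) * dr n A := by
      intro A hA
      rw [Matrix.mul_smul, Matrix.smul_mul, Matrix.mul_sub, Matrix.sub_mul, hk A hA, hku A hA]
    have hupadd : ∀ (K : Type) [Field K] [Algebra ℚ K] (x y : T r m n ℚ),
        up K (x + y) = up K x + up K y := by
      intro K _ _ x y
      ext i j
      exact map_add (algebraMap ℚ K) _ _
    have hupsub : ∀ (K : Type) [Field K] [Algebra ℚ K] (x y : T r m n ℚ),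
        up K (x - y) = up K x - up K y := by
      intro K _ _ x y
      ext i j
      exact map_sub (algebraMap ℚ K) _ _
    have hupsmul : ∀ (K : Type) [Field K] [Algebra ℚ K] (c : ℚ) (x : T r m n ℚ),
        up K (c • x) = (algebraMap ℚ K c) • up K x := by
      intro K _ _ c x
      ext i j
      exact map_mul (algebraMap ℚ K) _ _
    have hmain : ∀ (K : Type) [Field K] [Algebra ℚ K] (g : GL (Fin r) K),
        (g : Matrix (Fin r) (Fin r) K)ᵀ * Q.map (algebraMap ℚ K) *
          (g : Matrix (Fin r) (Fin r) K) = Q.map (algebraMap ℚ K) →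
        act g (up K ((1 / 2 : ℚ) • (t + u))) = up K ((1 / 2 : ℚ) • (t + u)) ∧
        act g (up K ((1 / 2 : ℚ) • (t - u))) =
          (g : Matrix (Fin r) (Fin r) K).det • up K ((1 / 2 : ℚ) • (t - u)) := by
      intro K _ _ g hg
      have hRK : act (GeneralLinearGroup.map (algebraMap ℚ K) (R k0)) (up K t) = up K u := by
        rw [hu]
        exact (act_map (algebraMap ℚ K) (R k0) t).symm
      have hRKval : ((GeneralLinearGroup.map (algebraMap ℚ K) (R k0) : GL (Fin r) K) :
          Matrix (Fin r) (Fin r) K) = (R k0 : Matrix (Fin r) (Fin r) ℚ).map (algebraMap ℚ K) := rfl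
      rcases det_sq (hQK K) hg with h1 | h1
      · have e1 := tnt r m n Q t hQ hs hk K g hg h1
        have e2 := tnt r m n Q u hQ hs hku K g hg h1
        rw [hupsmul, hupsmul, act_smul, act_smul, hupadd, hupsub, act_add, act_sub, e1, e2, h1,
          one_smul]
        exact ⟨rfl, rfl⟩
      · have hiso : ((g * GeneralLinearGroup.map (algebraMap ℚ K) (R k0) : GL (Fin r) K) :
            Matrix (Fin r) (Fin r) K)ᵀ * Q.map (algebraMap ℚ K) *
            ((g * GeneralLinearGroup.map (algebraMap ℚ K) (R k0) : GL (Fin r) K) :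
              Matrix (Fin r) (Fin r) K) = Q.map (algebraMap ℚ K) := by
          rw [Units.val_mul, hRKval, transpose_mul]
          calc ((R k0 : Matrix (Fin r) (Fin r) ℚ).map (algebraMap ℚ K))ᵀ *
                (g : Matrix (Fin r) (Fin r) K)ᵀ * Q.map (algebraMap ℚ K) *
                ((g : Matrix (Fin r) (Fin r) K) *
                  (R k0 : Matrix (Fin r) (Fin r) ℚ).map (algebraMap ℚ K))
              = ((R k0 : Matrix (Fin r) (Fin r) ℚ).map (algebraMap ℚ K))ᵀ *
                ((g : Matrix (Fin r) (Fin r) K)ᵀ * Q.map (algebraMap ℚ K) *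
                (g : Matrix (Fin r) (Fin r) K)) *
                  (R k0 : Matrix (Fin r) (Fin r) ℚ).map (algebraMap ℚ K) := by
                simp only [Matrix.mul_assoc]
            _ = Q.map (algebraMap ℚ K) := by
                rw [hg, ← Matrix.transpose_map, ← Matrix.map_mul, ← Matrix.map_mul, hR k0]
        have hdet : ((g * GeneralLinearGroup.map (algebraMap ℚ K) (R k0) : GL (Fin r) K) :
            Matrix (Fin r) (Fin r) K).det = 1 := by
          rw [Units.val_mul, hRKval, det_mul, h1]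
          have h2 := congrArg (algebraMap ℚ K) (hRdet k0)
          rw [RingHom.map_det, map_neg, map_one] at h2
          have h3 : ((R k0 : Matrix (Fin r) (Fin r) ℚ).map (algebraMap ℚ K)).det = -1 := h2
          rw [h3]; ring
        have e1 := tnt r m n Q t hQ hs hk K _ hiso hdet
        have e2 := tnt r m n Q u hQ hs hku K _ hiso hdet
        rw [act_mul, hRK] at e1
        have e3 : act (GeneralLinearGroup.map (algebraMap ℚ K) (R k0)) (up K u) = up K t := by
          have h4 : act (R k0) u = t := by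
            rw [hu, ← act_mul]
            have h5 : R k0 * R k0 = 1 := by
              show E * dk ℚ k0 * E⁻¹ * (E * dk ℚ k0 * E⁻¹) = 1
              have h6 : dk ℚ k0 * dk ℚ k0 = 1 := by
                apply Units.ext
                rw [Units.val_mul, dk_val, Units.val_one, diagonal_mul_diagonal]
                simp only [sv_sq]
                exact diagonal_one
              calc E * dk ℚ k0 * E⁻¹ * (E * dk ℚ k0 * E⁻¹) = E * (dk ℚ k0 * dk ℚ k0) * E⁻¹ := by
                    group
                _ = 1 := by rw [h6]; group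
            rw [h5]
            unfold act
            rw [inv_one, Units.val_one, pw_one, pw_one, Matrix.one_mul, Matrix.mul_one]
          conv_rhs => rw [← h4]
          exact (act_map (algebraMap ℚ K) (R k0) u).symm
        rw [act_mul, e3] at e2
        rw [hupsmul, hupsmul, act_smul, act_smul, hupadd, hupsub, act_add, act_sub, e1, e2, h1]
        constructor
        · rw [add_comm]
        · rw [neg_one_smul, ← smul_neg, neg_sub]
    refine ⟨(1 / 2 : ℚ) • (t + u), (1 / 2 : ℚ) • (t - u), hsum, hK1, hK2, hmain, ?_⟩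
    set t₂ : T r m n ℚ := (1 / 2 : ℚ) • (t - u) with ht₂
    have hmainQ : ∀ g : GL (Fin r) ℚ, (g : Matrix (Fin r) (Fin r) ℚ)ᵀ * Q *
        (g : Matrix (Fin r) (Fin r) ℚ) = Q → act g t₂ = (g : Matrix (Fin r) (Fin r) ℚ).det • t₂ := by
      intro g hg
      have h1 := (hmain ℚ g (by rw [map_rat]; exact hg)).2
      rw [up_rat] at h1
      exact h1
    rintro (h | h | h)
    · exact absurd h halt
    · -- few indices
      have h1 : ∀ k, act (dk ℚ k) (act E⁻¹ t₂) = -(act E⁻¹ t₂) := by
        intro k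
        have h2 := hmainQ (R k) (hR k)
        rw [hRdet k] at h2
        have h3 : dk ℚ k * E⁻¹ = E⁻¹ * R k := by
          show dk ℚ k * E⁻¹ = E⁻¹ * (E * dk ℚ k * E⁻¹)
          group
        rw [← act_mul, h3, act_mul, h2, act_smul, neg_one_smul]
      have h2 : act E⁻¹ t₂ = 0 := by
        ext i j
        obtain ⟨k, hk1, hk2⟩ : ∃ k : Fin r, (∀ a, i a ≠ k) ∧ ∀ b, j b ≠ k := by
          by_contra hcon
          push Not at hcon
          have hsur : Function.Surjective (Sum.elim i j : Fin m ⊕ Fin n → Fin r) := by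
            intro k
            by_cases hk : ∃ a, i a = k
            · obtain ⟨a, ha⟩ := hk
              exact ⟨Sum.inl a, ha⟩
            · push Not at hk
              obtain ⟨b, hb⟩ := hcon k hk
              exact ⟨Sum.inr b, hb⟩
          have := Fintype.card_le_of_surjective _ hsur
          rw [Fintype.card_fin, Fintype.card_sum, Fintype.card_fin, Fintype.card_fin] at this
          omega
        have h3 := congrFun (congrFun (h1 k) i) j
        rw [act_diag (dk ℚ k) (sv k) (dk_val k) (dk_inv k)] at h3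
        have h4 : ∏ a, sv k (i a) = (1 : ℚ) := Finset.prod_eq_one fun a _ => by
          unfold sv
          rw [Function.update_of_ne (hk1 a)]
        have h5 : ∏ b, sv k (j b) = (1 : ℚ) := Finset.prod_eq_one fun b _ => by
          unfold sv
          rw [Function.update_of_ne (hk2 b)]
        rw [h4, h5, one_mul, mul_one, Matrix.neg_apply] at h3
        rw [Matrix.zero_apply]
        linarith
      have h3 := act_inv E t₂
      rw [h2] at h3
      rw [← h3]
      exact (actL E).map_zero
    · -- parity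
      have h1 : (mo r ℚ : Matrix (Fin r) (Fin r) ℚ) = diagonal (fun _ => -1) := rfl
      have h1' : (((mo r ℚ)⁻¹ : GL (Fin r) ℚ) : Matrix (Fin r) (Fin r) ℚ) =
          diagonal (fun _ => -1) := rfl
      have h2 := hmainQ (mo r ℚ) (by
        rw [h1, diagonal_transpose]
        ext i j
        rw [mul_diagonal, diagonal_mul]
        ring)
      ext i j
      have h3 := congrFun (congrFun h2 i) j
      rw [act_diag (mo r ℚ) (fun _ => -1) h1 h1', h1, det_diagonal, Matrix.smul_apply,
        smul_eq_mul] at h3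
      simp only [Finset.prod_const, Finset.card_univ, Fintype.card_fin] at h3
      have h4 : (-1 : ℚ) ^ (m + n + r) = -1 := h.neg_one_pow
      have h5 : ((-1 : ℚ) ^ r) * (-1) ^ r = 1 := by rw [← mul_pow]; norm_num
      rw [pow_add, pow_add] at h4
      rw [Matrix.zero_apply]
      have h6 : (-1 : ℚ) ^ m * (-1) ^ n = -(-1) ^ r := by
        linear_combination (-1 : ℚ) ^ r * h4 - (-1 : ℚ) ^ m * (-1) ^ n * h5
      have h7 : (-1 : ℚ) ^ m * t₂ i j * (-1) ^ n = ((-1 : ℚ) ^ m * (-1) ^ n) * t₂ i j := by ring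
      rw [h7, h6] at h3
      have h8 : (-1 : ℚ) ^ r * t₂ i j = 0 := by linarith
      exact (mul_eq_zero.mp h8).resolve_left (pow_ne_zero _ (by norm_num))

end Pool.Agent.Helper21.TH
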